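import Pool.Agent.Y184.NT.Top
import Pool.Agent.Y944.NT.NLG
import Pool.Agent.Y944.NT.VertG
import Pool.Agent.Y317.NT.NLF
import Pool.Agent.Y858.NT.Irr

/-!
# Negative Kodaira dimension, uniruledness and rationality of images of hypersurfaces

Let `V` be an irreducible hypersurface of degree `d` and dimension `n ≥ 1` in projective
`(n + 1)`-space, arbitrarily singular, and let `G` be a form of degree `e` such that the canonical
forms `A G Res` of `V` are regular for all forms `A` of degree `m`, where `d = m + e + n + 2`. If `V`
is smooth, or has canonical singularities, one can take `G = 1` and `m = d - n - 2`; in general the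
equation `G = 0` is an adjoint hypersurface.

Let `W` be any smooth projective variety with a dominant rational map `V ⇢ W` of degree `r`; nothing
is assumed about the map (it need not be a quotient by a group, and its ramification is arbitrary)
or about `W`. The theorem: if `r ≤ m + 1` then `p_g(W) > 0`. If `r ≤ 2 m + 1`, and `n + e ≤ m + 1`
or `r ≥ n + e + 1`, then these are equivalent: `p_g(W) = 0`; `κ(W) = -∞`; `K_W` is not
pseudo-effective; `W` is uniruled; `W` is rational.

For instance, if `V` is smooth of degree `d ≥ 2 n + 1` then the five conditions are equivalent for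
all `W` dominated by `V` with degree at most `2 d - 2 n - 3`.

Proof: the traces of the canonical forms `A G Res`, `A` of degree `m`, are canonical forms of `W`.
If `p_g(W) = 0` then the fibres satisfy the Cayley–Bacharach condition for the forms of degree `m`,
so that `r ≥ m + 2`, and, since `r ≤ 2 m + 1`, they are collinear. The Jacobian of the family of
lines so obtained is divisible by the equation of the residual points of the intersection of `V`
with the lines, except for the zeros of `G`. By a ramification argument at the divisor `V` of
projective space the family is a congruence of order one: a general point of projective space lies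
on one line of the family. The intersection with a hyperplane gives a birational map from `W` to
this hyperplane.

The function-field language of the starting repository is used: `M` is the function field of `V`,
and `L`, a subfield of `M`, the function field of `W`. A canonical form (`IsPluri 1`) on a variety
of dimension `n` is a function of `n` rational vector fields; it is regular at the prime divisor `P`
(`Place`, `Divisorial`, `RegAt`) if its value on vector fields which are regular at `P` is regular
at `P`. `KodGe ℂ L n (fun _ => False) 0` says that `κ(W) ≥ 0`, `Psef ℂ L n (fun _ => False)` that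
`K_W` is pseudo-effective (`Pool/Agent/W602/GT`), `IsUniruled ℂ L n` that `W` is uniruled
(`Pool/Agent/W619/PQ/Defs.lean`).
-/

set_option autoImplicit false

open FF MvPolynomial Pool.Agent.W602.GT
open Pool.Agent.W619.PQ (IsUniruled)

namespace Pool.Agent.Results.MP_e06174_ag.ImagesOfSmallDegree

/-- The form `F` has no singular zeros: its partial derivatives have no common zero but `0`. -/
def Smooth {n : ℕ} (F : MvPolynomial (Fin (n + 2)) ℂ) : Prop :=
  ∀ x : Fin (n + 2) → ℂ, x ≠ 0 → ∃ l, eval x (pderiv l F) ≠ 0

section

variable {M : Type} [Field M] [Algebra ℂ M] {n : ℕ}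

/-- `x` is the generic point of the hypersurface `F = 0` of dimension `n`, whose function field is
`M`; the homogeneous coordinates are normalised by `x 0 = 1`. -/
structure IsGenericPoint (F : MvPolynomial (Fin (n + 2)) ℂ) (x : Fin (n + 2) → M) : Prop where
  one : x 0 = 1
  zero : aeval x F = 0
  gen : IntermediateField.adjoin ℂ (Set.range x) = ⊤
  dim : Algebra.trdeg ℂ M = n

/-- The residue `G Res` on the hypersurface `F = 0` with the generic point `x`: its value on the
vector fields `D i` is `G(x)` times the determinant with the rows `c`, `x` and `D i x`, for a vector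
`c` with `∑ F_l(x) c_l = 1` (it does not depend on the choice of `c`). -/
noncomputable def residue (G : MvPolynomial (Fin (n + 2)) ℂ) (c x : Fin (n + 2) → M)
    (D : Fin n → Derivation ℂ M M) : M :=
  aeval x G * (Matrix.of (Fin.cons c (Fin.cons x fun i j => D i (x j)) :
    Fin (n + 2) → Fin (n + 2) → M)).det

/-- The canonical forms `A G Res` are regular at all prime divisors, for all monomials (hence for
all forms) `A` of degree `m`, and `G` does not vanish on the hypersurface. -/
structure IsAdjoint (m : ℕ) (G : MvPolynomial (Fin (n + 2)) ℂ) (c x : Fin (n + 2) → M) : Prop where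
  ne : aeval x G ≠ 0
  reg : ∀ (f : Fin m → Fin (n + 2)) (P : Place ℂ M), Divisorial n P →
    RegAt P (fun D : Fin n → Derivation ℂ M M => (∏ k, x (f k)) * residue G c x D)

end

section

variable (L : Type) [Field L] [Algebra ℂ L] (n : ℕ)

/-- The geometric genus is zero: the only canonical form which is regular at all prime divisors is
`0`. -/
def GenusZero : Prop :=
  ∀ ω : (Fin n → Derivation ℂ L L) → L, IsPluri 1 ω →
    (∀ P : Place ℂ L, Divisorial n P → RegAt P ω) → ∀ D, ω D = 0

/-- The varieties of dimension `n` with function field `L` are rational. -/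
def IsRational : Prop :=
  ∃ f : Fin n → L, AlgebraicIndependent ℂ f ∧ IntermediateField.adjoin ℂ (Set.range f) = ⊤

end

/-- **Images of hypersurfaces.** Let `M` be the function field of a hypersurface `V` of degree `d`
and dimension `n ≥ 1`, and let `G` be a form of degree `e = d - m - n - 2`, where either `V` is
smooth and `G = 1`, or `V` is irreducible and the canonical forms `A G Res` are regular for all
forms `A` of degree `m`. Let `W` be a smooth projective variety with function field `L` and
`V ⇢ W` a dominant rational map of degree `r`. If `r ≤ m + 1` then `p_g(W) > 0`. If `r ≤ 2 m + 1`,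
and `n + e ≤ m + 1` or `r ≥ n + e + 1`, then `p_g(W) = 0` if and only if `κ(W) = -∞`, if and only if
`K_W` is not pseudo-effective, if and only if `W` is uniruled, if and only if `W` is rational. -/
theorem result {n m e d : ℕ} (hn : 1 ≤ n) (hm : m + e + n + 2 = d)
    {F G : MvPolynomial (Fin (n + 2)) ℂ} (hF : F.IsHomogeneous d) (hG : G.IsHomogeneous e)
    {M : Type} [Field M] [Algebra ℂ M] {x c : Fin (n + 2) → M} (hx : IsGenericPoint F x)
    (hc : ∑ l, aeval x (pderiv l F) * c l = 1)
    (hV : (Smooth F ∧ G = 1) ∨ (Irreducible F ∧ IsAdjoint m G c x))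
    (L : Type) [Field L] [Algebra ℂ L] [Algebra L M] [IsScalarTower ℂ L M]
    [FiniteDimensional L M] :
    (Module.finrank L M ≤ m + 1 → ¬ GenusZero L n) ∧
    (Module.finrank L M ≤ 2 * m + 1 → (n + e ≤ m + 1 ∨ n + e + 1 ≤ Module.finrank L M) →
      [GenusZero L n, ¬ KodGe ℂ L n (fun _ => False) 0, ¬ Psef ℂ L n (fun _ => False),
        IsUniruled ℂ L n, IsRational L n].TFAE) := by
  classical
  have hessM : Algebra.EssFiniteType ℂ M := by
    rw [← IntermediateField.fg_top_iff]
    exact ⟨Finset.univ.image x, by
      rw [Finset.coe_image, Finset.coe_univ, Set.image_univ, hx.gen]⟩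
  have hessL : Algebra.EssFiniteType ℂ L := Pool.Agent.TH466.QG.ess_below (K := M)
  have hL : Algebra.trdeg ℂ L = n := Pool.Agent.Y184.NT.trdeg_below (K := M) hx.dim
  have hNLG : Pool.Agent.Y184.NT.StNLG := Pool.Agent.Y944.NT.stNLG
    (Pool.Agent.Y297.NT.t_Pull Pool.Agent.Y71.NT.t_abh) Pool.Agent.Y929.NT.t_W0
    Pool.Agent.Y888.NT.stDer
  have hVert : Pool.Agent.Y184.NT.StVertG := Pool.Agent.Y944.NT.stVertG hNLG
  have hNLF : Pool.Agent.Y184.NT.StNLF := Pool.Agent.Y317.NT.nlf hNLG Pool.Agent.Y858.NT.irr
  have hx00 : x 0 ≠ 0 := by
    rw [hx.one]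
    exact one_ne_zero
  have hgen' : IntermediateField.adjoin ℂ (Set.range fun j => x j / x 0) = ⊤ := by
    have h1 : (fun j => x j / x 0) = x := by
      funext j
      rw [hx.one, div_one]
    rw [h1, hx.gen]
  -- the adjoint condition
  have hadj : IsAdjoint m G c x := by
    rcases hV with ⟨hs, rfl⟩ | ⟨-, h⟩
    · refine ⟨by simp, ?_⟩
      have he : e = 0 := hG.inj_right (isHomogeneous_one _ _) one_ne_zero
      intro f P _
      have h1 := Pool.Agent.Y988.NT.res_b M n m d F _ hs hF (Pool.Agent.Y184.NT.hom_monom f)
        (by omega) c x hx.zero hc P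
      simp only [Pool.Agent.Y184.NT.aeval_monom] at h1
      simp only [residue, map_one, one_mul]
      exact h1
    · exact h
  have hpluri : IsPluri 1 (residue G c x) := Pool.Agent.Y988.NT.res_a M n _ c x
  have hne : ∃ D, residue G c x D ≠ 0 := by
    obtain ⟨z, E, hz, hE⟩ := Pool.Agent.Y172.exists_crd (k := ℂ) (K := M) hx.dim
    exact ⟨E, mul_ne_zero hadj.ne (Pool.Agent.Y988.NT.res_c M n d F hF (by omega) c x hx.zero hc
      (fun D hD => Pool.Agent.Y184.NT.der_gen hx00 hgen' D hD) E
      (Pool.Agent.Y184.NT.lift_ind (L := M) (K := M) hE fun _ _ => rfl))⟩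
  have hreg1 : ∀ P : Place ℂ M, Divisorial n P → RegAt P (residue G c x) := by
    intro P hP
    have h1 := hadj.reg (fun _ => 0) P hP
    simp only [hx.one, Finset.prod_const_one, one_mul] at h1
    exact h1
  have hgenL : IntermediateField.adjoin L (Set.range fun j => algebraMap M M (x j)) = ⊤ := by
    rw [eq_top_iff]
    intro y _
    have h1 : y ∈ IntermediateField.adjoin ℂ (Set.range x) := by
      rw [hx.gen]
      trivial
    have h2 : IntermediateField.adjoin ℂ (Set.range x) ≤
        (IntermediateField.adjoin L (Set.range fun j => algebraMap M M (x j))).restrictScalars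
          ℂ := by
      rw [IntermediateField.adjoin_le_iff]
      exact IntermediateField.subset_adjoin L _
    exact h2 h1
  have part1 : Module.finrank L M ≤ m + 1 → ¬ GenusZero L n := by
    intro hr hg
    obtain ⟨θ, hθ, hθr, D, hD⟩ := (Pool.Agent.Y184.NT.dom (L := L) (K := M) hNLG hn hx.dim hx.one
      hx.gen hpluri hne hadj.reg hgenL).1 hr
    exact hD (hg θ hθ hθr D)
  refine ⟨part1, fun hr hcase => ?_⟩
  refine Pool.Agent.Y184.NT.tfae_of hn hL fun hpg => ?_
  have h3 : m + 1 < Module.finrank L M := by
    by_contra hcon
    push Not at hcon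
    exact part1 hcon hpg
  obtain ⟨z, E, hz, -⟩ := Pool.Agent.Y172.exists_crd (k := ℂ) (K := L) hL
  refine (Pool.Agent.Y184.NT.pg_zeroG (L := L) hVert hn hm hF hG hx.zero hx.one hx.gen hx.dim hc
    hadj.ne hadj.reg (fun a b τ hab hxab => ?_) ?_ hr hpg).2
  · rcases hV with ⟨hs, -⟩ | ⟨hirr, -⟩
    · exact Pool.Agent.Y184.NT.restr_smooth hn (by omega) hs hF hx.one hx.gen hx.dim a b τ hab hxab
    · exact hNLF L M n n d hx.dim z hz (residue G c x) hpluri hreg1 hne F hirr hF x 0 hx.one hx.gen
        hx.zero a b τ hab hxab
  · rcases hcase with hcase | hcase <;> omega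

end Pool.Agent.Results.MP_e06174_ag.ImagesOfSmallDegree
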