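import Pool.Agent.Y192.KC.Dich

/-!
MP_e06174_ag, Q1: Kodaira dimension and uniruledness of the covers
`w j ^ e j = F j (t 0 ^ m, …, t n ^ m)` of arbitrary projective varieties, `m` large.

`KodGe ℂ L d (fun _ => False) 0`: the Kodaira dimension of the (smooth projective) varieties with
function field `L` is at least zero, that is, some pluricanonical form which is regular at all prime
divisors is not zero. `Psef ℂ L d (fun _ => False)`: their canonical bundle is pseudo-effective.
-/

set_option autoImplicit false

namespace Pool.Agent.Results.MP_e06174_ag.KummerUniruled

open Pool.Agent.W602.GT Pool.Agent.Y192.KC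

/-- Let `Z` be any irreducible projective variety in `P^n`, not in a coordinate hyperplane, with the
homogeneous prime ideal `I`, let `F 1, …, F r` be forms which do not vanish on `Z`, and let
`e 1, …, e r` be positive numbers (there is no condition on the singularities of `Z` and of the
divisors `F j = 0`). There is a number `m0` with the following property. Let `m ≥ m0` be divisible by
the `e j`, and let `X` be any irreducible component, of dimension `d > 0`, of the projective variety
with the equations `f (t 0 ^ m, …, t n ^ m) = 0`, `f ∈ I`, and
`w j ^ e j = F j (t 0 ^ m, …, t n ^ m)` in the weighted projective space with the homogeneous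
coordinates `t i` and `w j`; `L` is the function field of `X`, and `t`, `w` are the coordinates of its
generic point. Then the following are equivalent:
(1) the Kodaira dimension of `X` is `-∞`,
(2) the canonical bundle of (a resolution of) `X` is not pseudo-effective,
(3) `X` is birational to `B × P^1` for some variety `B`,
(4) `X` is not of general type,
(5) the rational curves in `X` are dense (`X` is uniruled),
(6) the entire curves in `X` are dense,
(7) the holomorphic maps from the punctured disc to `X` which do not extend are dense,
(8) there is a one-parameter group of diagonal matrices which acts nontrivially on `P^n` and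
preserves `Z` and the essential parts of the branch divisors `F j = 0` on `Z`. -/
theorem result {n r : ℕ} (X : ZCov n r) (hG : X.G = 1) :
    ∃ m0 : ℕ, ∀ m, m0 ≤ m → (∀ j, X.e j ∣ m) →
      ∀ (L : Type) [Field L] [Algebra ℂ L] (t : Fin (n + 1) → L) (w : Fin r → L),
      ZField X m L t w → ∀ d : ℕ, 1 ≤ d → Algebra.trdeg ℂ L = d →
      [¬ KodGe ℂ L d (fun _ => False) 0, ¬ Psef ℂ L d (fun _ => False), Ruled ℂ L,
        ¬ GeneralType ℂ L d, ¬ PseudoRational X.toCov m t w, ¬ PseudoBrody X.toCov m t w,
        ¬ PseudoPicard X.toCov m t w, ZRed X].TFAE :=
  dich_all X hG

end Pool.Agent.Results.MP_e06174_ag.KummerUniruled
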