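import Pool.Agent.Y191.MovKod

/-!
# Nonvanishing for covers of products of projective spaces with moving arrangements of hyperplanes
over varieties with many hyperplane sections of small multiplicity

Let `X` be a smooth projective variety, `X ⇢ P^n` a rational map whose image `Y`, any subvariety of
`P^n`, has dimension `p`. Suppose:

* (the base) `ℓ i = 0`, `i < q`, are hyperplanes in general position which do not contain `Y`, such
  that the points `ℓ i` impose independent conditions on the forms of degree `d`, with weights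
  `wt i ≥ 0` whose sum is at least `(p + 1) γ`, `γ = (n - p + d).choose (n - p)`, and for each prime
  divisor `P` of `X`, if `e i` is the multiplicity of the hyperplane `ℓ i = 0` at `P` (for the
  divisors without fixed component which the map defines),
  `min (#{i | e i ≠ 0}) γ ≤ ∑ i, (1 - wt i) e i`;
  or there are more than `(n + Q).choose n` general hyperplanes, `2 n m ≤ Q (m - 1)`, `m ≥ 2`, and
  each `e i` is `0` or at least `m`;
* (the fibres) there is a generically finite rational map, over `Y`, of `X` to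
  `Y × P^{r_1} × ... × P^{r_c}`; in each `P^{r_j}` there are hyperplanes `A j i = 0` in general
  position which move with the point of `Y` or of a finite cover of `Y` over which `X ⇢ Y` factors,
  that is, their coefficients are in `ℂ(X)` and algebraic over `ℂ(Y)`, with weights `w j i` in `[0, 1]` whose sum is at least
  `r_j + 1`, and for the prime divisors `P` of `X` which are mapped onto `Y`, either the
  multiplicities `ε j i` of all these hyperplanes at `P` are zero or `1 ≤ ∑ (1 - w j i) ε j i`. For
  `w j i = 1 - 1 / m j i`: `1 ≤ ∑ ε j i / m j i`, for instance because one of the multiplicities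
  `ε j i` is at least `m j i`.

Then `κ(X) ≥ 0`; more precisely `κ(X) ≥ l`, where `l` is the sum of the `r_j` for which the sum of the
weights is greater than `r_j + 1`, and `κ(X) ≥ p + l` if the sum of the `wt i` is greater than
`(p + 1) γ`, or in the case of general hyperplanes. So there is no such `X` with `κ(X) = -∞` (Q1).
The fibres can be, for instance, products of arbitrary cyclic covers of the projective line of genus
at least one, double planes over six lines or more, and their covers.

The function-field language of the starting repository is used. `K` is the function field of `X`;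
the prime divisors of `X` are places `P` of `K` (`Place`, `Divisorial`), `P.ord` is the order along
`P`, and `X` is given by the set of its prime divisors. A section of `N K_X` is an `N`-canonical form
`ω` (`IsPluri`), a function of `dim X` rational vector fields, whose value on vector fields that are
regular at `P` is regular at `P`, for all prime divisors `P` of `X`. The image `Y` has the function
field `RF ℂ b` of the ratios of the coordinates `b j` of the map, and `u ⟨j, k⟩` are the affine
coordinates of the map to `P^{r_j}` (homogeneous coordinates `hcd u j = (1, u ⟨j, 0⟩, ...)`).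

Proof: the sections are the products of the form of the base of `Pool.Agent.Y191` and of products of
determinants of logarithmic derivatives of the linear forms along the fibres (`mov_low`).
-/

set_option autoImplicit false

open FF Pool.Agent.W602.GT Pool.Agent.Y191

namespace Pool.Agent.Results.MP_e06174_ag.MovingArrangementCovers

section

variable {K : Type} [Field K] [Algebra ℂ K]

/-- The `b j` are the coordinates of a rational map whose image has dimension `p` and is not
contained in one of the hyperplanes `ℓ i = 0`. -/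
def IsMap {n q : ℕ} (ℓ : Fin q → Fin (n + 1) → ℂ) (b : Fin (n + 1) → K) (p : ℕ) : Prop :=
  (∀ i, lf (ℓ i) b ≠ 0) ∧ (∃ j, b j ≠ 0) ∧ Algebra.trdeg ℂ (RF ℂ b) = p

/-- The `u ⟨j, k⟩` are the coordinates of a generically finite map, over the variety with the function
field `L`, to a product of projective spaces; `A j i` are the coefficients of hyperplanes of these
spaces, algebraic over `L` and in general position, with weights `w j i` in `[0, 1]` whose sum is at
least `r j + 1`; for each prime divisor `P` in `X` which is trivial on `L` the multiplicities `ε j i`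
of the hyperplanes are all zero or satisfy `1 ≤ ∑ (1 - w j i) ε j i`. -/
def Fibres (L : IntermediateField ℂ K) (X : Set (Place ℂ K)) {c : ℕ} (r q : Fin c → ℕ)
    (w : ∀ j, Fin (q j) → ℚ) : Prop :=
  (∀ j, (∀ i, 0 ≤ w j i ∧ w j i ≤ 1) ∧ (r j + 1 : ℚ) ≤ ∑ i, w j i) ∧
  ∃ (A : ∀ j, Fin (q j) → Fin (r j + 1) → K) (u : (Σ j, Fin (r j)) → K),
    MovArr L A ∧ IsTranscendenceBasis L u ∧
    ∀ P ∈ X, (∀ f ∈ L, f ≠ 0 → P.ord f = 0) → ∀ (c' : Fin c → ℤ) (ε : ∀ j, Fin (q j) → ℕ),
      (∀ j, MOrd P (A j) (hcd u j) (c' j) (ε j)) → (∃ j i, ε j i ≠ 0) →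
        1 ≤ ∑ j, ∑ i, (1 - w j i) * ε j i

/-- the sum of the dimensions `r j` for which the sum of the weights is greater than `r j + 1` -/
def big {c : ℕ} (r q : Fin c → ℕ) (w : ∀ j, Fin (q j) → ℚ) : ℕ :=
  ∑ j, if (r j + 1 : ℚ) < ∑ i, w j i then r j else 0

/-- `ω` is a section of `N K_X`, where `X` of dimension `w` is given by the set of its prime divisors:
an `N`-canonical form whose values on vector fields which are regular at `P` are regular at `P`, for
all prime divisors `P` of `X`. -/
def IsSection (w : ℕ) (X : Set (Place ℂ K)) (N : ℕ) (ω : (Fin w → Derivation ℂ K K) → K) : Prop :=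
  IsPluri N ω ∧ ∀ P ∈ X, Divisorial w P → ∀ D : Fin w → Derivation ℂ K K,
    (∀ i, DerReg P (D i)) → P.Reg (ω D)

/-- `κ (X) ≥ κ`: some positive multiple of `K_X` has sections with `κ` algebraically independent
ratios (a nonzero section, if `κ = 0`). -/
def KodairaGe (w : ℕ) (X : Set (Place ℂ K)) (κ : ℕ) : Prop :=
  ∃ N : ℕ, 0 < N ∧ ∃ ω : Fin (κ + 1) → (Fin w → Derivation ℂ K K) → K,
    (∀ j, IsSection w X N (ω j)) ∧
    ∃ D, ω 0 D ≠ 0 ∧ AlgebraicIndependent ℂ (fun i : Fin κ => ω i.succ D / ω 0 D)

theorem conv {w κ : ℕ} {X : Set (Place ℂ K)}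
    (h : Pool.Agent.Y191.KodairaGe w X (fun _ => 0) κ) : KodairaGe w X κ := by
  obtain ⟨N, hN, ω, h5, h6⟩ := h
  refine ⟨N, hN, ω, fun j => ⟨(h5 j).1, fun P hPX hPd D hD => ?_⟩, h6⟩
  rcases (h5 j).2 P hPX hPd D hD with h7 | h7
  · exact Or.inl h7
  · right
    have h8 : (0 : ℝ) ≤ (P.ord (ω j D) : ℝ) := by simpa using h7
    exact_mod_cast h8

end

theorem exists_idx {c : ℕ} (r q : Fin c → ℕ) (w : ∀ j, Fin (q j) → ℚ) :
    ∃ κ : Fin (big r q w) → Σ j, Fin (r j), Function.Injective κ ∧
      ∀ i, (r (κ i).1 + 1 : ℚ) < ∑ i', w (κ i).1 i' := by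
  classical
  have h1 : Fintype.card {x : Σ j, Fin (r j) // (r x.1 + 1 : ℚ) < ∑ i, w x.1 i} = big r q w := by
    rw [Fintype.card_subtype, Finset.card_filter, Fintype.sum_sigma]
    refine Finset.sum_congr rfl fun j _ => ?_
    change ∑ _k : Fin (r j), (if (r j + 1 : ℚ) < ∑ i, w j i then 1 else 0) = _
    rw [Finset.sum_const, Finset.card_univ, Fintype.card_fin, smul_eq_mul, mul_ite, mul_one,
      mul_zero]
  let φ := Fintype.equivFinOfCardEq h1
  exact ⟨fun i => (φ.symm i : Σ j, Fin (r j)), fun a b hab => φ.symm.injective (Subtype.ext hab),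
    fun i => (φ.symm i).2⟩

/-- **Nonvanishing.** Let `K` be the function field of a smooth projective variety `X` of dimension
`p + ∑ j, r j`, `b` the coordinates of a rational map `X ⇢ P^n` whose image `Y` has dimension `p`, and
let `X` have a generically finite map, over `Y`, to `Y × P^{r_1} × ... × P^{r_c}` with moving
hyperplanes as in `Fibres`. Let `l` be the sum of the `r j` for which the sum of the weights of the
hyperplanes is greater than `r j + 1`.

(1) Let `ℓ i = 0` be hyperplanes in general position which do not contain `Y` and impose independent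
conditions on the forms of degree `d`, with weights `wt i ≥ 0` whose sum is at least `(p + 1) * γ`,
where `γ = (n - p + d).choose (n - p)`. Let the multiplicities `e i` satisfy
`min (#{i | e i ≠ 0}) γ ≤ ∑ i, (1 - wt i) e i` at all prime divisors of `X`. Then `κ(X) ≥ l`, and
`κ(X) ≥ p + l` if the sum of the weights is greater than `(p + 1) * γ`.

(2) Let `m ≥ 2`, `2 * n * m ≤ Q * (m - 1)` and `(n + Q).choose n < q`. For `q` general hyperplanes
(some polynomial `Ψ` does not vanish at the coefficients) the following holds: if `p ≥ 1` and all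
multiplicities `e i` at the prime divisors of `X` are `0` or at least `m` then `κ(X) ≥ p + l`. -/
theorem result {n q : ℕ} (hn : 1 ≤ n) :
    (∀ d p : ℕ, 0 < d → ∀ ℓ : Fin q → Fin (n + 1) → ℂ, Independent d ℓ → GeneralPosition ℓ →
      n + 1 ≤ q → ∀ (K : Type) [Field K] [Algebra ℂ K] (c : ℕ) (r qf : Fin c → ℕ),
      Algebra.trdeg ℂ K = (p + ∑ j, r j : ℕ) → ∀ b : Fin (n + 1) → K, IsMap ℓ b p →
      ∀ wt : Fin q → ℚ, (∀ i, 0 ≤ wt i) →
      (((p + 1) * (n - p + d).choose (n - p) : ℕ) : ℚ) ≤ ∑ i, wt i →
      ∀ X : Set (Place ℂ K),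
      (∀ P ∈ X, Divisorial (p + ∑ j, r j) P → ∀ (c : ℤ) (e : Fin q → ℕ), OrdData P ℓ b c e →
        ((min (Finset.univ.filter fun i => e i ≠ 0).card ((n - p + d).choose (n - p)) : ℕ) : ℚ) ≤
          ∑ i, (1 - wt i) * e i) →
      ∀ w : ∀ j, Fin (qf j) → ℚ, Fibres (RF ℂ b) X r qf w →
      KodairaGe (p + ∑ j, r j) X (big r qf w) ∧
        ((((p + 1) * (n - p + d).choose (n - p) : ℕ) : ℚ) < ∑ i, wt i →
          KodairaGe (p + ∑ j, r j) X (p + big r qf w))) ∧
    ∀ m Q : ℕ, 2 ≤ m → 2 * n * m ≤ Q * (m - 1) → (n + Q).choose n < q →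
      ∃ Ψ : MvPolynomial (Fin q × Fin (n + 1)) ℂ, Ψ ≠ 0 ∧
        ∀ ℓ : Fin q → Fin (n + 1) → ℂ, MvPolynomial.eval (fun x => ℓ x.1 x.2) Ψ ≠ 0 →
        ∀ (K : Type) [Field K] [Algebra ℂ K] (p c : ℕ) (r qf : Fin c → ℕ), 1 ≤ p →
        Algebra.trdeg ℂ K = (p + ∑ j, r j : ℕ) → ∀ b : Fin (n + 1) → K, IsMap ℓ b p →
        ∀ X : Set (Place ℂ K),
        (∀ P ∈ X, Divisorial (p + ∑ j, r j) P → ∀ (c : ℤ) (e : Fin q → ℕ), OrdData P ℓ b c e →
          ∀ i, e i = 0 ∨ m ≤ e i) →
        ∀ w : ∀ j, Fin (qf j) → ℚ, Fibres (RF ℂ b) X r qf w →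
        KodairaGe (p + ∑ j, r j) X (p + big r qf w) := by
  have key : ∀ {K : Type} [Field K] [Algebra ℂ K] {L : IntermediateField ℂ K}
      {X : Set (Place ℂ K)} {c : ℕ} {r q : Fin c → ℕ} {w : ∀ j, Fin (q j) → ℚ}
      {A : ∀ j, Fin (q j) → Fin (r j + 1) → K} {u : (Σ j, Fin (r j)) → K},
      (∀ P ∈ X, (∀ f ∈ L, f ≠ 0 → P.ord f = 0) → ∀ (c' : Fin c → ℤ) (ε : ∀ j, Fin (q j) → ℕ),
      (∀ j, MOrd P (A j) (hcd u j) (c' j) (ε j)) → (∃ j i, ε j i ≠ 0) →
        1 ≤ ∑ j, ∑ i, (1 - w j i) * ε j i) → HorMult L A u w X fun _ => 0 := by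
    intro K _ _ L X c r q w A u h P hP htr c' ε ho hε
    have h1 := h P hP htr c' ε ho hε
    have h2 : ((1 : ℚ) : ℝ) ≤ ((∑ j, ∑ i, (1 - w j i) * ε j i : ℚ) : ℝ) := by exact_mod_cast h1
    push_cast at h2
    rw [zero_add]
    exact h2
  constructor
  · rintro d p hd ℓ hI hg hq K _ _ c r qf hK b ⟨hl, hb, htr⟩ wt hwt hlt X hmult w
      ⟨hw, A, u, hA, hu, hH⟩
    obtain ⟨κ, hκ, hκs⟩ := exists_idx r qf w
    have h3 := mov_small (δ := fun _ => 0) (X := X) hd hI hg hq hl hb htr hK hwt hlt
      (fun _ _ => le_rfl) (fun P hP hPd c e ho => by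
        rw [mul_zero, zero_add]
        exact_mod_cast hmult P hP hPd c e ho) hA finSigmaFinEquiv hu (fun j i => ((hw j).1 i).1)
      (fun j i => ((hw j).1 i).2) (fun j => (hw j).2) hκ hκs (key hH)
    exact ⟨conv h3.1, fun h => conv (h3.2 h)⟩
  · intro m Q hm hQ hq
    obtain ⟨Ψ, hΨ, h⟩ := mov_general (n := n) (q' := q) hn hm hQ hq
    refine ⟨Ψ, hΨ, ?_⟩
    rintro ℓ hℓ K _ _ p c r qf hp hK b ⟨hl, hb, htr⟩ X hmult w ⟨hw, A, u, hA, hu, hH⟩
    obtain ⟨κ, hκ, hκs⟩ := exists_idx r qf w
    refine conv (h ℓ hℓ K p (∑ j, r j) (big r qf w) hp hK b hl hb htr X (fun _ => 0)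
      (fun _ _ => le_rfl) (fun P hP hPd c e ho i => ?_) c r qf A u hA finSigmaFinEquiv hu w
      (fun j i => ((hw j).1 i).1) (fun j i => ((hw j).1 i).2) (fun j => (hw j).2) κ hκ hκs
      (key hH))
    rcases hmult P hP hPd c e ho i with h1 | h1
    · exact Or.inl h1
    · right
      rw [sub_zero, mul_one]
      exact_mod_cast h1

end Pool.Agent.Results.MP_e06174_ag.MovingArrangementCovers
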