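import Pool.Agent.Y190.SN.Lang
import Pool.Agent.Y190.BV.Cng

/-!
MP_e06174_ag, Q1: the Kodaira dimension and uniruledness of the closed subvarieties of the varieties
`X_{n,m}(a)` of the vectors whose `m`-th powers are the values of a polynomial of degree at most `n`
at given constants.

`PowVal a n m` is the cone over `X_{n,m}(a)`. `Cone F` is the cone over the projective variety
`V = {F = 0}`; `SubVar F K w y` means that `K` is the function field, and `y` the generic point, of
a closed subvariety of dimension `w` of it. `KodGe k K w (fun _ => False) 0`: the Kodaira dimension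
of (a smooth projective model of) `V` is at least zero, that is, some pluricanonical form is not
zero. `Psef k K w (fun _ => False)`: its canonical bundle is pseudo-effective. `SpLine F`, `SpGm F`,
`SpAlg F` are the Zariski closures of the unions of the lines in `V`, of the images of the
nonconstant morphisms from the multiplicative group to `V`, and of the closed subvarieties of `V` of
positive dimension which are not of general type.
-/

set_option autoImplicit false

namespace Pool.Agent.Results.MP_e06174_ag.PolynomialValueUniruled

open Pool.Agent.W602.GT Pool.Agent.Y190.BV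

/-- Let `m ≥ 2` and `4 n + (n + 1) ^ 2 < 2 (N + 1)`, and let `V` be a closed irreducible subvariety
of `X_{n,m}(a)` with generic point `y`, so that `y i ^ m = H (a i)` for a polynomial `H` of degree
at most `n` over the function field `K` of `V`; suppose that `H` is not divisible by the `m`-th
power of a polynomial of degree greater than one (which is automatic if `n < 2 m`). The following
are equivalent: the Kodaira dimension of `V` is `-∞`; its canonical bundle is not pseudo-effective;
`V` is ruled; the lines in `V` are dense in `V`; the images of the multiplicative group are dense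
in `V`; the
subvarieties of positive dimension which are not of general type are dense in `V`; `V` is not of
general type. -/
theorem result {k : Type} [Field k] [IsAlgClosed k] [CharZero k] {N n m : ℕ} (hm : 2 ≤ m)
    (hN : 4 * n + (n + 1) ^ 2 < 2 * (N + 1)) (a : Fin (N + 1) → k)
    (ha : Function.Injective a) {ι : Type} (F : ι → MvPolynomial (Fin (N + 1)) k)
    (hF : ∀ e, IsForm (F e)) (hV : Cone F ⊆ PowVal a n m) {K : Type} [Field K] [Algebra k K]
    {w : ℕ} {y : Fin (N + 1) → K} (hy : SubVar F K w y)
    (hgen : ∀ G : MvPolynomial (Fin (N + 1)) k, IsForm G →
      (val y G = 0 ↔ ∀ x ∈ Cone F, val x G = 0))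
    (H : Polynomial K) (hH : H.natDegree ≤ n)
    (hyH : ∀ i, y i ^ m = H.eval (algebraMap k K (a i)))
    (hs : ∀ q : Polynomial K, q ^ m ∣ H → q.natDegree ≤ 1) :
    [¬ KodGe k K w (fun _ => False) 0, ¬ Psef k K w (fun _ => False), Ruled k K,
      SpLine F = Cone F, SpGm F = Cone F, SpAlg F = Cone F, ¬ GeneralType k K w].TFAE := by
  have hn : n ≤ N := by nlinarith
  refine Pool.Agent.Y190.SN.lang_simple (n := n) (m := m) hm hn hN ha hF
    (by rw [cone_buchi ha hn]; exact hV) hy ?_ hgen
  rw [Pool.Agent.Y190.SN.intp_eq ha hn hH hyH]
  exact hs

end Pool.Agent.Results.MP_e06174_ag.PolynomialValueUniruled
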